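import Pool.Agent.Y716.C.Defs
import Pool.Agent.Y716.Q.Stmt

/-!
# Unbalanced vectors with general exponents (job C11 of helper716)
-/

namespace Pool.Agent.Y514.C

open Pool.Agent.Y716.Q

theorem floor_bounds {Y : ℝ} (hY : 2 ≤ Y) {c : ℕ} (hc : 1 ≤ c) : ((⌊Y ^ c⌋₊ : ℕ) : ℝ) ≤ Y ^ c ∧
    Y ^ c / 2 ≤ ((⌊Y ^ c⌋₊ : ℕ) : ℝ) ∧ 1 ≤ ⌊Y ^ c⌋₊ := by
  have h0 : (0:ℝ) ≤ Y ^ c := by positivity
  have h1 := Nat.floor_le h0
  have h2 := Nat.sub_one_lt_floor (Y ^ c)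
  have h3 : (2:ℝ) ≤ Y ^ c := by
    calc (2:ℝ) ≤ Y := hY
      _ = Y ^ 1 := by ring
      _ ≤ Y ^ c := pow_le_pow_right₀ (by linarith) hc
  refine ⟨h1, by linarith, ?_⟩
  apply Nat.le_floor
  push_cast
  linarith

theorem log_bound {Y : ℝ} (hY : 1 ≤ Y) (g : ℕ) :
    1 + Real.log (4 * Y ^ (g + 1)) ≤ ((g : ℝ) + 5) * Y := by
  have hY0 : 0 < Y := by linarith
  rw [Real.log_mul (by norm_num) (by positivity), Real.log_pow]
  have h1 := Real.log_le_sub_one_of_pos (show (0:ℝ) < 4 by norm_num)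
  have h2 := Real.log_le_sub_one_of_pos hY0
  have h3 : ((g + 1 : ℕ) : ℝ) * Real.log Y ≤ ((g + 1 : ℕ) : ℝ) * Y :=
    mul_le_mul_of_nonneg_left (by linarith) (by positivity)
  push_cast at h3 ⊢
  nlinarith

/-- unbalanced vectors with general exponents -/
theorem unbal_sys (ι : Type*) [Fintype ι] {Cu : ℝ} (hCu0 : 0 < Cu)
    (hCu : Pool.Agent.Y716.Q.UB ι Cu) {k β c r : ℕ} (hk : Fintype.card ι = k) (hk2 : 2 ≤ k)
    (hc : 1 ≤ c) (hr : 1 ≤ r) (h1 : c + β + 2 ≤ 2 * r) (h2 : β + (k - 1) + 2 ≤ (k - 1) * c)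
    (h3 : c ≤ β) {q : ℝ} (hq : 0 < q) : ∃ Y₀ : ℝ, ∀ Y : ℝ, Y₀ ≤ Y → ∀ U : Finset (ι → ℤ),
      (∀ x ∈ U, Sz (2 * Y ^ β) x ∧ Prim x ∧
        ¬ Bal (2 * Y ^ β) (((r : ℕ) : ℝ) * ((⌊Y ^ c⌋₊ : ℕ) : ℝ)) x) →
      (U.card : ℝ) ≤ q * (Y ^ β) ^ k := by
  obtain ⟨n, rfl⟩ : ∃ n, k = n + 2 := ⟨k - 2, by omega⟩
  have e0 : n + 2 - 1 = n + 1 := by omega
  rw [e0] at h2
  obtain ⟨d, rfl⟩ : ∃ d, c = d + 1 := ⟨c - 1, by omega⟩
  have hd : 1 ≤ d := by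
    by_contra h
    have h0 : d = 0 := by omega
    subst h0
    rw [Nat.zero_add, Nat.mul_one] at h2
    omega
  obtain ⟨g, rfl⟩ : ∃ g, β = d + 1 + g := ⟨β - (d + 1), by omega⟩
  obtain ⟨K, hK⟩ : ∃ K : ℝ, K = Cu * 4 ^ (n + 2) * ((g : ℝ) + 5) := ⟨_, rfl⟩
  have hK0 : 0 < K := by rw [hK]; positivity
  refine ⟨max 64 (max (2 * ((n + 2 : ℕ) : ℝ) * r + 3) (K / q)), fun Y hY U hU => ?_⟩
  have hY64 : 64 ≤ Y := (le_max_left _ _).trans hY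
  have hYa : 2 * ((n + 2 : ℕ) : ℝ) * r + 3 ≤ Y :=
    ((le_max_left _ _).trans (le_max_right _ _)).trans hY
  have hYb : K / q ≤ Y := ((le_max_right _ _).trans (le_max_right _ _)).trans hY
  have hY0 : 0 < Y := by linarith
  have hY1 : 1 ≤ Y := by linarith
  obtain ⟨hm1, hm2, hm3⟩ := floor_bounds (show (2:ℝ) ≤ Y by linarith) (show 1 ≤ d + 1 by omega)
  obtain ⟨m, hm⟩ : ∃ m : ℕ, m = ⌊Y ^ (d + 1)⌋₊ := ⟨_, rfl⟩
  rw [← hm] at hm1 hm2 hm3 hU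
  have e1 : 2 * (2 * Y ^ (d + 1 + g)) * (1 / Y ^ d) = 4 * Y ^ (g + 1) := by
    rw [show d + 1 + g = d + (g + 1) by ring, pow_add]
    field_simp
    ring
  have hsmall : (((Fintype.card ι : ℕ) : ℝ) * r * m + 1) * (2 * Y ^ (d + 1 + g)) + 1 ≤
      (2 * ((n + 2 : ℕ) : ℝ) * r + 3) * Y ^ (d + 1 + (d + 1 + g)) := by
    rw [hk, pow_add Y (d + 1) (d + 1 + g)]
    have a1 : ((n + 2 : ℕ) : ℝ) * r * m ≤ ((n + 2 : ℕ) : ℝ) * r * Y ^ (d + 1) :=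
      mul_le_mul_of_nonneg_left hm1 (by positivity)
    have a2 : (1:ℝ) ≤ Y ^ (d + 1) := one_le_pow₀ hY1
    have a3 : (1:ℝ) ≤ Y ^ (d + 1 + g) := one_le_pow₀ hY1
    have a4 : (((n + 2 : ℕ) : ℝ) * r * m + 1) * (2 * Y ^ (d + 1 + g)) ≤
        (((n + 2 : ℕ) : ℝ) * r * Y ^ (d + 1) + Y ^ (d + 1)) * (2 * Y ^ (d + 1 + g)) :=
      mul_le_mul_of_nonneg_right (by linarith) (by positivity)
    have a5 : (1:ℝ) ≤ Y ^ (d + 1) * Y ^ (d + 1 + g) := one_le_mul_of_one_le_of_one_le a2 a3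
    nlinarith
  have hbig : Y ≤ 2 * m * (1 / Y ^ d) := by
    rw [mul_one_div, le_div_iff₀ (by positivity)]
    calc Y * Y ^ d = Y ^ (d + 1) := by ring
      _ ≤ 2 * (m : ℝ) := by linarith
  have hpow : (1 / (2 * (m : ℝ) * (1 / Y ^ d))) ^ (2 * r) ≤ 1 / Y ^ (2 * r) := by
    calc (1 / (2 * (m : ℝ) * (1 / Y ^ d))) ^ (2 * r) ≤ (1 / Y) ^ (2 * r) :=
          pow_le_pow_left₀ (by positivity) (one_div_le_one_div_of_le hY0 hbig) _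
      _ = 1 / Y ^ (2 * r) := by rw [one_div_pow]
  have key := hCu (2 * Y ^ (d + 1 + g)) m r (1 / Y ^ d)
    (by
      have : (1:ℝ) ≤ Y ^ (d + 1 + g) := one_le_pow₀ hY1
      linarith) hm3 hr (by positivity)
    (by
      apply one_div_le_one_div_of_le (by norm_num)
      calc (64:ℝ) ≤ Y := hY64
        _ = Y ^ 1 := by ring
        _ ≤ Y ^ d := pow_le_pow_right₀ hY1 hd)
    (by
      have a1 : ((((Fintype.card ι : ℕ) : ℝ) * r * m + 1) * (2 * Y ^ (d + 1 + g)) + 1) *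
          (1 / (2 * (m : ℝ) * (1 / Y ^ d))) ^ (2 * r) ≤
          ((2 * ((n + 2 : ℕ) : ℝ) * r + 3) * Y ^ (d + 1 + (d + 1 + g))) * (1 / Y ^ (2 * r)) :=
        mul_le_mul hsmall hpow (by positivity) (by positivity)
      refine lt_of_le_of_lt a1 ?_
      rw [mul_one_div, div_lt_one (by positivity)]
      calc (2 * ((n + 2 : ℕ) : ℝ) * r + 3) * Y ^ (d + 1 + (d + 1 + g)) ≤
            Y * Y ^ (d + 1 + (d + 1 + g)) := mul_le_mul_of_nonneg_right hYa (by positivity)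
        _ = Y ^ (d + 1 + (d + 1 + g) + 1) := by ring
        _ < Y ^ (2 * r) := pow_lt_pow_right₀ (by linarith) (by omega))
    (by
      rw [e1]
      have : (1:ℝ) ≤ Y ^ (g + 1) := one_le_pow₀ hY1
      linarith) U hU
  refine key.trans ?_
  rw [e1, hk, e0]
  have a1 : Cu * (2 * Y ^ (d + 1 + g)) ^ 2 * (4 * Y ^ (g + 1)) ^ (n + 1) *
      (1 + Real.log (4 * Y ^ (g + 1))) ≤
      Cu * (2 * Y ^ (d + 1 + g)) ^ 2 * (4 * Y ^ (g + 1)) ^ (n + 1) * (((g : ℝ) + 5) * Y) :=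
    mul_le_mul_of_nonneg_left (log_bound hY1 g) (by positivity)
  refine a1.trans ?_
  have a2 : Cu * (2 * Y ^ (d + 1 + g)) ^ 2 * (4 * Y ^ (g + 1)) ^ (n + 1) * (((g : ℝ) + 5) * Y) =
      K * Y ^ ((d + 1 + g) * 2 + (g + 1) * (n + 1) + 1) := by
    rw [hK, mul_pow, mul_pow, ← pow_mul, ← pow_mul, pow_add Y ((d + 1 + g) * 2 + (g + 1) * (n + 1)),
      pow_add Y ((d + 1 + g) * 2)]
    ring
  rw [a2]
  rw [div_le_iff₀ hq] at hYb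
  have a3 : K * Y ^ ((d + 1 + g) * 2 + (g + 1) * (n + 1) + 1) ≤
      (Y * q) * Y ^ ((d + 1 + g) * 2 + (g + 1) * (n + 1) + 1) :=
    mul_le_mul_of_nonneg_right hYb (by positivity)
  refine a3.trans ?_
  have a4 : (Y * q) * Y ^ ((d + 1 + g) * 2 + (g + 1) * (n + 1) + 1) =
      q * Y ^ ((d + 1 + g) * 2 + (g + 1) * (n + 1) + 1 + 1) := by
    rw [pow_succ Y ((d + 1 + g) * 2 + (g + 1) * (n + 1) + 1)]
    ring
  rw [a4, ← pow_mul]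
  apply mul_le_mul_of_nonneg_left _ hq.le
  apply pow_le_pow_right₀ hY1
  nlinarith

end Pool.Agent.Y514.C
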